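import Pool.Agent.Helper41_PIT.Multi

/-!
The cluster test.
-/

set_option autoImplicit false

open MvPolynomial

namespace Pool.Agent.Helper41_PIT

variable {σ : Type*} {R : Type*} [CommRing R] [IsDomain R] [CharZero R]
variable {ι J : Type*} [Fintype ι] [Fintype J]

/-- one summand -/
noncomputable def term (u : J → MvPolynomial σ R) (h : ι → MvPolynomial σ R) (α : ι → σ →₀ ℕ)
    (e : ι → J → ℕ) (i : ι) : MvPolynomial σ R :=
  h i * monomial (α i) 1 * ∏ j, u j ^ e i j

open Classical in
/-- the part of the sum linked to `i` -/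
noncomputable def part (u : J → MvPolynomial σ R) (h : ι → MvPolynomial σ R) (α : ι → σ →₀ ℕ)
    (e : ι → J → ℕ) (N : ℕ) (i : ι) : MvPolynomial σ R :=
  ∑ l with Linked (fun l => (α l).degree) N i l, term u h α e l

variable (u : J → MvPolynomial σ R) (h : ι → MvPolynomial σ R) (α : ι → σ →₀ ℕ)
    (e : ι → J → ℕ) (N : ℕ)

omit [IsDomain R] [CharZero R] [Fintype ι] in
theorem coeff_term (i : ι) (γ : σ →₀ ℕ) : coeff γ (term u h α e i) =
    if α i ≤ γ then coeff (γ - α i) (h i * ∏ j, u j ^ e i j) else 0 := by
  have : term u h α e i = (h i * ∏ j, u j ^ e i j) * monomial (α i) 1 := by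
    unfold term; ring
  rw [this, coeff_mul_monomial']
  simp only [mul_one]

theorem part_est (hu : ∀ j, constantCoeff (u j) ≠ 0)
    (hN : (∑ j, (u j).totalDegree) * (Fintype.card ι * (Fintype.card ι - 1) / 2) +
        ∑ i, (h i).totalDegree ≤ N) (i : ι) (hi : part u h α e N i ≠ 0) :
    ∃ a, Linked (fun l => (α l).degree) N i a ∧ ∃ γ : σ →₀ ℕ, coeff γ (part u h α e N i) ≠ 0 ∧
      (α a).degree ≤ γ.degree ∧ γ.degree ≤ (α a).degree + N ∧
      γ.degree = (grade (part u h α e N i)).natTrailingDegree := by
  classical
  set κ := {l // Linked (fun l => (α l).degree) N i l} with hκ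
  have hle : Fintype.card κ ≤ Fintype.card ι := Fintype.card_subtype_le _
  have h1 : part u h α e N i = ∑ l : κ, term u h α e l.1 := by
    unfold part
    rw [Finset.sum_subtype (p := fun l => Linked (fun l => (α l).degree) N i l)]
    intro x
    simp
  obtain ⟨a, γ, hγ, h2, h3, h4⟩ := zeroEst_mv (ι := κ) u (fun l => h l.1) (fun l => α l.1)
    (fun l => e l.1) hu (f := part u h α e N i) h1 hi N (le_trans (Nat.add_le_add
      (Nat.mul_le_mul_left _ (Nat.div_le_div_right (Nat.mul_le_mul hle
        (Nat.sub_le_sub_right hle 1)))) (by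
        have h5 : ∑ l : κ, (h l.1).totalDegree =
            ∑ l with Linked (fun l => (α l).degree) N i l, (h l).totalDegree := by
          rw [Finset.sum_subtype (p := fun l => Linked (fun l => (α l).degree) N i l)]
          intro x
          simp
        rw [h5]
        exact Finset.sum_le_sum_of_subset (Finset.filter_subset _ _))) hN)
  exact ⟨a.1, a.2, γ, hγ, h2, h3, h4⟩

omit [IsDomain R] [CharZero R] in
theorem part_eq_of_linked {i l : ι} (hil : Linked (fun l => (α l).degree) N i l) :
    part u h α e N i = part u h α e N l := by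
  classical
  unfold part
  refine Finset.sum_congr ?_ fun _ _ => rfl
  ext x
  simp only [Finset.mem_filter, Finset.mem_univ, true_and]
  exact ⟨fun hx => hil.symm.trans hx, fun hx => hil.trans hx⟩

/-- if the whole sum vanishes then so does each linked part -/
theorem part_eq_zero (hu : ∀ j, constantCoeff (u j) ≠ 0)
    (hN : (∑ j, (u j).totalDegree) * (Fintype.card ι * (Fintype.card ι - 1) / 2) +
        ∑ i, (h i).totalDegree ≤ N) (hf : ∑ i, term u h α e i = 0) (i : ι) :
    part u h α e N i = 0 := by
  classical
  let s : Setoid ι :=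
    { r := Linked (fun l => (α l).degree) N
      iseqv := ⟨Linked.refl, Linked.symm, Linked.trans⟩ }
  let g : Quotient s → MvPolynomial σ R := fun q => ∑ l with Quotient.mk s l = q, term u h α e l
  have hg : ∀ i, g (Quotient.mk s i) = part u h α e N i := by
    intro i
    unfold part
    refine Finset.sum_congr ?_ fun _ _ => rfl
    ext x
    simp only [Finset.mem_filter, Finset.mem_univ, true_and]
    constructor
    · intro hx
      exact (Quotient.exact hx : Linked (fun l => (α l).degree) N x i).symm
    · intro hx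
      exact Quotient.sound (hx.symm : Linked (fun l => (α l).degree) N x i)
  have hsum : ∑ q, g q = 0 := by
    rw [← hf]
    exact Finset.sum_fiberwise _ _ _
  by_contra hne
  have hne' : (Finset.univ.filter fun q => g q ≠ 0).Nonempty :=
    ⟨Quotient.mk s i, Finset.mem_filter.2 ⟨Finset.mem_univ _, by rw [hg]; exact hne⟩⟩
  obtain ⟨q0, hq0, hmin⟩ := Finset.exists_min_image _ (fun q => (grade (g q)).natTrailingDegree) hne'
  have hq0' := (Finset.mem_filter.1 hq0).2
  set μ := (grade (g q0)).natTrailingDegree with hμ
  have hc : (grade (g q0)).coeff μ ≠ 0 :=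
    Polynomial.trailingCoeff_nonzero_iff_nonzero.2 (grade_ne_zero hq0')
  apply hc
  have h1 : (∑ q, grade (g q)).coeff μ = 0 := by
    rw [← map_sum, hsum, map_zero, Polynomial.coeff_zero]
  rw [Polynomial.finsetSum_coeff, Finset.sum_eq_single q0] at h1
  · exact h1
  · intro q _ hq
    by_cases hgq : g q = 0
    · rw [hgq, map_zero, Polynomial.coeff_zero]
    · apply Polynomial.coeff_eq_zero_of_lt_natTrailingDegree
      refine lt_of_le_of_ne (hmin q (Finset.mem_filter.2 ⟨Finset.mem_univ _, hgq⟩)) ?_
      intro heq
      apply hq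
      obtain ⟨i1, rfl⟩ := Quotient.exists_rep q
      obtain ⟨i0, rfl⟩ := Quotient.exists_rep q0
      rw [hg] at hgq hq0'
      obtain ⟨a1, hl1, γ1, -, h11, h12, h13⟩ := part_est u h α e N hu hN i1 hgq
      obtain ⟨a0, hl0, γ0, -, h01, h02, h03⟩ := part_est u h α e N hu hN i0 hq0'
      have heq' : γ0.degree = γ1.degree := by
        rw [h13, h03, ← hg, ← hg]
        exact heq
      apply Quotient.sound
      show Linked (fun l => (α l).degree) N i1 i0
      refine hl1.trans (Linked.trans (Relation.ReflTransGen.single ?_) hl0.symm)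
      constructor
      · show (α a1).degree ≤ (α a0).degree + N
        omega
      · show (α a0).degree ≤ (α a1).degree + N
        omega
  · intro hcon; exact absurd (Finset.mem_univ _) hcon

open Classical in
/-- the cluster test -/
theorem cluster_test (hu : ∀ j, constantCoeff (u j) ≠ 0)
    (hN : (∑ j, (u j).totalDegree) * (Fintype.card ι * (Fintype.card ι - 1) / 2) +
        ∑ i, (h i).totalDegree ≤ N) :
    ∑ i, term u h α e i = 0 ↔ ∀ i, ∀ β : σ →₀ ℕ, β.degree ≤ Fintype.card ι * N →
      ∑ l with Linked (fun l => (α l).degree) N i l ∧ α l ≤ α i + β,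
        coeff (α i + β - α l) (h l * ∏ j, u j ^ e l j) = 0 := by
  have hcoeff : ∀ (i : ι) (γ : σ →₀ ℕ), coeff γ (part u h α e N i) =
      ∑ l with Linked (fun l => (α l).degree) N i l ∧ α l ≤ γ,
        coeff (γ - α l) (h l * ∏ j, u j ^ e l j) := by
    intro i γ
    unfold part
    rw [coeff_sum, ← Finset.filter_filter,
      Finset.sum_filter (s := Finset.univ.filter _) (fun l => α l ≤ γ)]
    exact Finset.sum_congr rfl fun l _ => coeff_term u h α e l γ
  constructor
  · intro hf i β _
    rw [← hcoeff, part_eq_zero u h α e N hu hN hf i, coeff_zero]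
  · intro htest
    have hparts : ∀ i, part u h α e N i = 0 := by
      intro i
      by_contra hne
      obtain ⟨a, hla, γ, hγ, h1, h2, h3⟩ := part_est u h α e N hu hN i hne
      rw [hcoeff] at hγ
      obtain ⟨l, hl, hl2⟩ := Finset.exists_ne_zero_of_sum_ne_zero hγ
      rw [Finset.mem_filter] at hl
      obtain ⟨-, hlink, hle⟩ := hl
      apply hγ
      have h4 := htest l (γ - α l) (by
        have h5 : (α a).degree ≤ (α l).degree + (Fintype.card ι - 1) * N :=
          (hla.symm.trans hlink).bound
        have h6 : γ.degree = (γ - α l).degree + (α l).degree := by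
          rw [← map_add, tsub_add_cancel_of_le hle]
        have h7 : 0 < Fintype.card ι := Fintype.card_pos_iff.2 ⟨i⟩
        obtain ⟨c, hc⟩ : ∃ c, Fintype.card ι = c + 1 := ⟨Fintype.card ι - 1, by omega⟩
        rw [hc, Nat.add_sub_cancel] at h5
        rw [hc, add_mul, one_mul]
        omega)
      rw [add_tsub_cancel_of_le hle] at h4
      rw [← h4]
      refine Finset.sum_congr ?_ fun _ _ => rfl
      ext x
      simp only [Finset.mem_filter, Finset.mem_univ, true_and]
      exact ⟨fun hx => ⟨hlink.symm.trans hx.1, hx.2⟩, fun hx => ⟨hlink.trans hx.1, hx.2⟩⟩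
    let s : Setoid ι :=
      { r := Linked (fun l => (α l).degree) N
        iseqv := ⟨Linked.refl, Linked.symm, Linked.trans⟩ }
    rw [← Finset.sum_fiberwise (g := fun l => Quotient.mk s l)]
    refine Finset.sum_eq_zero fun q _ => ?_
    obtain ⟨i, rfl⟩ := Quotient.exists_rep q
    rw [← hparts i]
    unfold part
    refine Finset.sum_congr ?_ fun _ _ => rfl
    ext x
    simp only [Finset.mem_filter, Finset.mem_univ, true_and]
    constructor
    · intro hx
      exact (Quotient.exact hx : Linked (fun l => (α l).degree) N x i).symm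
    · intro hx
      exact Quotient.sound (hx.symm : Linked (fun l => (α l).degree) N x i)

end Pool.Agent.Helper41_PIT
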