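import Pool.Agent.Helper41_PIT.Wr

/-!
The operators `X^r (d/dX)^r`, and the zero estimate at the origin for linear combinations of
`h_i X^(V_i) ∏ u_j^(e_ij)`, independent of the exponents.
-/

set_option autoImplicit false

open Polynomial

namespace Pool.Agent.Helper41_PIT

variable {K : Type*} [Field K]

/-- `X^r F^(r)` -/
noncomputable def th (r : ℕ) (F : K[X]) : K[X] := X ^ r * derivative^[r] F

theorem th_zero (F : K[X]) : th 0 F = F := by simp [th]

theorem X_mul_derivative_X_pow_mul (V : ℕ) (q : K[X]) :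
    X * derivative (X ^ V * q) = X ^ V * (C (V : K) * q + X * derivative q) := by
  rw [derivative_mul, derivative_X_pow]
  rcases V with _ | V
  · simp
  · simp only [Nat.add_sub_cancel]
    ring

theorem th_succ (r : ℕ) (F : K[X]) :
    th (r + 1) F = X * derivative (th r F) - C (r : K) * th r F := by
  unfold th
  rw [X_mul_derivative_X_pow_mul, Function.iterate_succ', Function.comp_apply]
  ring

theorem th_smul (r : ℕ) (b : K) (F : K[X]) : th r (b • F) = b • th r F := by
  unfold th
  rw [iterate_derivative_smul, mul_smul_comm]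

theorem th_sum (r : ℕ) {ι : Type*} (s : Finset ι) (F : ι → K[X]) :
    th r (∑ i ∈ s, F i) = ∑ i ∈ s, th r (F i) := by
  unfold th
  rw [iterate_derivative_sum, Finset.mul_sum]

theorem natDegree_X_mul_derivative_le (p : K[X]) :
    (X * derivative p).natDegree ≤ p.natDegree := by
  rcases Nat.eq_zero_or_pos p.natDegree with h0 | h0
  · rw [natDegree_eq_zero] at h0
    obtain ⟨a, rfl⟩ := h0
    simp
  · refine natDegree_mul_le.trans ?_
    have := natDegree_derivative_lt (p := p) (by omega)
    rw [natDegree_X]; omega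

theorem natDegree_th_le (r : ℕ) (F : K[X]) : (th r F).natDegree ≤ F.natDegree := by
  induction r with
  | zero => rw [th_zero]
  | succ r ih =>
    rw [th_succ]
    refine (natDegree_sub_le _ _).trans (max_le ((natDegree_X_mul_derivative_le _).trans ih) ?_)
    exact (natDegree_C_mul_le _ _).trans ih

theorem X_pow_dvd_th (r V : ℕ) (F : K[X]) (h : X ^ V ∣ F) : X ^ V ∣ th r F := by
  induction r with
  | zero => rwa [th_zero]
  | succ r ih =>
    rw [th_succ]
    obtain ⟨q, hq⟩ := ih
    refine dvd_sub ?_ (Dvd.dvd.mul_left ⟨q, hq⟩ _)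
    rw [hq, X_mul_derivative_X_pow_mul]
    exact dvd_mul_right _ _

section logd

variable {J : Type*} (u : J → K[X])

theorem exists_logDeriv (s : Finset J) (e : J → ℕ) :
    ∃ L : K[X], (∏ j ∈ s, u j) * derivative (∏ j ∈ s, u j ^ e j) = (∏ j ∈ s, u j ^ e j) * L := by
  classical
  induction s using Finset.induction_on with
  | empty => exact ⟨0, by simp⟩
  | insert a s ha ih =>
    obtain ⟨L, hL⟩ := ih
    refine ⟨C (e a : K) * derivative (u a) * ∏ j ∈ s, u j + u a * L, ?_⟩
    rw [Finset.prod_insert ha, Finset.prod_insert ha, derivative_mul, derivative_pow]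
    have h1 : u a * (C (e a : K) * u a ^ (e a - 1) * derivative (u a)) =
        C (e a : K) * u a ^ e a * derivative (u a) := by
      rcases e a with _ | n
      · simp
      · simp only [Nat.add_sub_cancel]; ring
    linear_combination (∏ j ∈ s, u j) * (∏ j ∈ s, u j ^ e j) * h1 + u a ^ e a * u a * hL

theorem exists_th_factor (s : Finset J) (e : J → ℕ) (h : K[X]) (V r : ℕ) :
    ∃ Q : K[X], (∏ j ∈ s, u j) ^ r * th r (h * X ^ V * ∏ j ∈ s, u j ^ e j) =
      (X ^ V * ∏ j ∈ s, u j ^ e j) * Q := by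
  obtain ⟨L, hL⟩ := exists_logDeriv u s e
  set G := ∏ j ∈ s, u j with hG
  set T := ∏ j ∈ s, u j ^ e j with hT
  induction r with
  | zero => exact ⟨h, by rw [th_zero]; ring⟩
  | succ r ih =>
    obtain ⟨Q, hQ⟩ := ih
    refine ⟨C (V : K) * G * Q + X * L * Q + X * G * derivative Q - C (r : K) * X * derivative G * Q
      - C (r : K) * G * Q, ?_⟩
    set F := h * X ^ V * T with hF
    -- derivative of `G^r * th r F`
    have h1 : G * derivative (G ^ r * th r F) =
        C (r : K) * derivative G * (G ^ r * th r F) + G ^ (r + 1) * derivative (th r F) := by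
      rw [derivative_mul, derivative_pow]
      have h2 : G * (C (r : K) * G ^ (r - 1) * derivative G) = C (r : K) * derivative G * G ^ r := by
        rcases r with _ | n
        · simp
        · simp only [Nat.add_sub_cancel]; ring
      linear_combination th r F * h2
    rw [hQ] at h1
    have h3 : X * derivative (X ^ V * T * Q) =
        X ^ V * (C (V : K) * (T * Q) + X * derivative (T * Q)) := by
      rw [mul_assoc, X_mul_derivative_X_pow_mul]
    rw [derivative_mul (f := T)] at h3
    rw [th_succ]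
    linear_combination (-X) * h1 + G * h3 + X ^ V * X * Q * hL - C (r : K) * G * hQ

end logd

/-- the matrix `X^r F_i^(r)` -/
noncomputable def emat {n : ℕ} (F : Fin n → K[X]) : Matrix (Fin n) (Fin n) K[X] :=
  fun r i => th r (F i)

theorem det_emat [CharZero K] {n : ℕ} (F : Fin n → K[X]) :
    (emat F).det = (∏ r : Fin n, X ^ (r : ℕ)) * (wmat F).det := by
  rw [← Matrix.det_mul_column]
  rfl

theorem natDegree_det_le {n : ℕ} (M : Matrix (Fin n) (Fin n) K[X]) (d : Fin n → ℕ)
    (h : ∀ r i, (M r i).natDegree ≤ d i) : M.det.natDegree ≤ ∑ i, d i := by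
  rw [Matrix.det_apply]
  refine natDegree_sum_le_of_forall_le _ _ fun σ _ => ?_
  refine (natDegree_smul_le _ _).trans ((natDegree_prod_le _ _).trans ?_)
  exact Finset.sum_le_sum fun i _ => h _ _

theorem X_pow_dvd_det {n : ℕ} (M : Matrix (Fin n) (Fin n) K[X]) (d : Fin n → ℕ)
    (h : ∀ r i, X ^ d i ∣ M r i) : X ^ (∑ i, d i) ∣ M.det := by
  rw [Matrix.det_apply]
  refine Finset.dvd_sum fun σ _ => ?_
  rw [Units.smul_def, zsmul_eq_mul]
  refine Dvd.dvd.mul_left ?_ _
  rw [← Finset.prod_pow_eq_pow_sum]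
  exact Finset.prod_dvd_prod_of_dvd _ _ fun i _ => h _ _

section zeroEst

variable [CharZero K] {J : Type*} [Fintype J] (u : J → K[X])

/-- the zero estimate for a linearly independent family -/
theorem zeroEst_li {n : ℕ} (h : Fin n → K[X]) (V : Fin n → ℕ) (e : Fin n → J → ℕ)
    (hu : ∀ j, (u j).coeff 0 ≠ 0)
    (hli : LinearIndependent K (fun i => h i * X ^ V i * ∏ j, u j ^ e i j))
    (b : Fin n → K) (i0 : Fin n) (hb : b i0 ≠ 0) (μ : ℕ)
    (hμ : X ^ μ ∣ ∑ i, b i • (h i * X ^ V i * ∏ j, u j ^ e i j)) :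
    μ ≤ V i0 + ((∑ j, (u j).natDegree) * (n * (n - 1) / 2) + ∑ i, (h i).natDegree) := by
  classical
  set F : Fin n → K[X] := fun i => h i * X ^ V i * ∏ j, u j ^ e i j with hF
  set T : Fin n → K[X] := fun i => ∏ j, u j ^ e i j with hT
  set G : K[X] := ∏ j, u j with hG
  set f := ∑ i, b i • F i with hf
  have hu0 : ∀ j, u j ≠ 0 := fun j h0 => hu j (by rw [h0]; simp)
  have hG0 : G ≠ 0 := Finset.prod_ne_zero_iff.2 fun j _ => hu0 j
  have hT0 : ∀ i, T i ≠ 0 := fun i => Finset.prod_ne_zero_iff.2 fun j _ => pow_ne_zero _ (hu0 j)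
  have hGc : G.coeff 0 ≠ 0 := by
    rw [coeff_zero_eq_eval_zero, hG, eval_prod]
    exact Finset.prod_ne_zero_iff.2 fun j _ => by
      rw [← coeff_zero_eq_eval_zero]; exact hu j
  have hTc : ∀ i, (T i).coeff 0 ≠ 0 := by
    intro i
    rw [coeff_zero_eq_eval_zero, hT]
    simp only [eval_prod, eval_pow]
    exact Finset.prod_ne_zero_iff.2 fun j _ => pow_ne_zero _ (by
      rw [← coeff_zero_eq_eval_zero]; exact hu j)
  have hFi : ∀ i, F i ≠ 0 := fun i => hli.ne_zero i
  have hh0 : ∀ i, h i ≠ 0 := by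
    intro i h0
    apply hFi i
    simp [hF, h0]
  -- factorisation
  choose Q hQ using fun (r i : Fin n) =>
    exists_th_factor u Finset.univ (e i) (h i) (V i) (r : ℕ)
  have hQ' : ∀ r i : Fin n, G ^ (r : ℕ) * emat F r i = (X ^ V i * T i) * Q r i := hQ
  have hdet : (∏ r : Fin n, G ^ (r : ℕ)) * (emat F).det =
      (∏ i, (X ^ V i * T i)) * (Matrix.of Q).det := by
    rw [← Matrix.det_mul_column, ← Matrix.det_mul_row]
    congr 1
    ext1 r i
    exact hQ' r i
  have hprodG : (∏ r : Fin n, G ^ (r : ℕ)) = G ^ (n * (n - 1) / 2) := by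
    rw [Finset.prod_pow_eq_pow_sum, Fin.sum_univ_eq_sum_range (fun r => r) n,
      Finset.sum_range_id]
  have hprodX : (∏ r : Fin n, (X : K[X]) ^ (r : ℕ)) ≠ 0 :=
    Finset.prod_ne_zero_iff.2 fun r _ => pow_ne_zero _ X_ne_zero
  have hedet : (emat F).det ≠ 0 := by
    rw [det_emat]
    exact mul_ne_zero hprodX (det_wmat_ne_zero hli)
  have hprodT : (∏ i, (X ^ V i * T i)) ≠ 0 :=
    Finset.prod_ne_zero_iff.2 fun i _ => mul_ne_zero (pow_ne_zero _ X_ne_zero) (hT0 i)
  have hQdet : (Matrix.of Q).det ≠ 0 := by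
    intro h0
    rw [h0, mul_zero, hprodG] at hdet
    exact mul_ne_zero (pow_ne_zero _ hG0) hedet hdet
  -- degree bound for `det Q`
  have hFdeg : ∀ i, (F i).natDegree = (h i).natDegree + (X ^ V i * T i).natDegree := by
    intro i
    have : F i = h i * (X ^ V i * T i) := by simp only [hF, hT]; ring
    rw [this, natDegree_mul (hh0 i) (mul_ne_zero (pow_ne_zero _ X_ne_zero) (hT0 i))]
  have hdegG : G.natDegree = ∑ j, (u j).natDegree :=
    natDegree_prod _ _ fun j _ => hu0 j
  have hdegQ : (Matrix.of Q).det.natDegree ≤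
      (∑ j, (u j).natDegree) * (n * (n - 1) / 2) + ∑ i, (h i).natDegree := by
    have h1 := congrArg natDegree hdet
    rw [hprodG, natDegree_mul (pow_ne_zero _ hG0) hedet, natDegree_mul hprodT hQdet,
      natDegree_pow, natDegree_prod _ _ fun i _ => mul_ne_zero (pow_ne_zero _ X_ne_zero) (hT0 i)]
      at h1
    have h2 : (emat F).det.natDegree ≤ ∑ i, (F i).natDegree :=
      natDegree_det_le _ _ fun r i => natDegree_th_le _ _
    simp only [hFdeg, Finset.sum_add_distrib] at h2
    rw [hdegG] at h1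
    have h3 : n * (n - 1) / 2 * ∑ j, (u j).natDegree = (∑ j, (u j).natDegree) * (n * (n - 1) / 2) :=
      mul_comm _ _
    omega
  -- replace column `i0` by `f`
  have hcol : ((emat F).updateCol i0 (fun r => th r f)).det = C (b i0) * (emat F).det := by
    have h1 := Matrix.det_updateCol_sum (emat F) i0 (fun i => C (b i))
    rw [smul_eq_mul] at h1
    rw [← h1]
    congr 2
    funext r
    rw [hf, th_sum]
    refine Finset.sum_congr rfl fun i _ => ?_
    rw [th_smul, smul_eq_C_mul, smul_eq_mul]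
    rfl
  have hdvd : X ^ (∑ i, Function.update V i0 μ i) ∣ C (b i0) * (emat F).det := by
    rw [← hcol]
    apply X_pow_dvd_det
    intro r i
    by_cases hi : i = i0
    · subst hi
      rw [Matrix.updateCol_self, Function.update_self]
      exact X_pow_dvd_th _ _ _ hμ
    · rw [Matrix.updateCol_ne hi, Function.update_of_ne hi]
      apply X_pow_dvd_th
      exact ⟨h i * T i, by simp only [hF, hT]; ring⟩
  have hdvd2 : X ^ (∑ i, Function.update V i0 μ i) ∣
      (∏ i, (X ^ V i * T i)) * (Matrix.of Q).det := by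
    rw [← hdet]
    refine Dvd.dvd.mul_left ?_ _
    have hCb : IsUnit (C (b i0)) := isUnit_C.2 (isUnit_iff_ne_zero.2 hb)
    exact (hCb.dvd_mul_left).1 hdvd
  have hsumV : ∑ i, Function.update V i0 μ i = μ + ∑ i ∈ Finset.univ.erase i0, V i := by
    rw [← Finset.add_sum_erase _ _ (Finset.mem_univ i0), Function.update_self]
    congr 1
    refine Finset.sum_congr rfl fun i hi => ?_
    rw [Function.update_of_ne (Finset.ne_of_mem_erase hi)]
  have hsumV' : ∑ i, V i = V i0 + ∑ i ∈ Finset.univ.erase i0, V i :=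
    (Finset.add_sum_erase _ _ (Finset.mem_univ i0)).symm
  have hcopX : ∀ p : K[X], p.coeff 0 ≠ 0 → IsCoprime (X : K[X]) p := by
    intro p hp
    exact (irreducible_X.coprime_iff_not_dvd).2 fun hd => hp (X_dvd_iff.1 hd)
  have h4 : X ^ μ ∣ X ^ V i0 * (Matrix.of Q).det := by
    rw [Finset.prod_mul_distrib, Finset.prod_pow_eq_pow_sum, hsumV, hsumV', pow_add, pow_add] at hdvd2
    have h5 : (X : K[X]) ^ (∑ i ∈ Finset.univ.erase i0, V i) * X ^ μ ∣
        X ^ (∑ i ∈ Finset.univ.erase i0, V i) * ((X ^ V i0 * (Matrix.of Q).det) * ∏ i, T i) := by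
      refine dvd_trans (dvd_of_eq (mul_comm _ _)) (hdvd2.trans (dvd_of_eq ?_))
      ring
    have h6 := (mul_dvd_mul_iff_left (pow_ne_zero _ X_ne_zero)).1 h5
    refine IsCoprime.dvd_of_dvd_mul_right ?_ h6
    apply IsCoprime.pow_left
    apply IsCoprime.prod_right
    intro i _
    exact hcopX _ (hTc i)
  refine le_trans ?_ (Nat.add_le_add_left hdegQ (V i0))
  by_contra hlt
  push Not at hlt
  obtain ⟨q, hq⟩ := h4
  have h7 : X ^ V i0 * (Matrix.of Q).det = X ^ V i0 * (X ^ (μ - V i0) * q) := by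
    rw [hq, ← mul_assoc, ← pow_add]
    congr 2
    omega
  have h8 := mul_left_cancel₀ (pow_ne_zero _ X_ne_zero) h7
  have h9 : q ≠ 0 := by
    rintro rfl
    rw [mul_zero] at h8
    exact hQdet h8
  have h10 : (Matrix.of Q).det.natDegree = (μ - V i0) + q.natDegree := by
    rw [h8, natDegree_mul (pow_ne_zero _ X_ne_zero) h9, natDegree_X_pow]
  omega

end zeroEst

end Pool.Agent.Helper41_PIT
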