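import Pool.Agent.Helper41_PIT.ZeroEst

/-!
The multivariate form: clusters of monomials of close total degree.
-/

set_option autoImplicit false

open MvPolynomial

namespace Pool.Agent.Helper41_PIT

section grade

variable {σ : Type*} {R : Type*} [CommRing R]

/-- the grading map `x_i ↦ x_i X` -/
noncomputable def grade : MvPolynomial σ R →ₐ[R] Polynomial (MvPolynomial σ R) :=
  aeval (fun i => Polynomial.C (MvPolynomial.X i) * Polynomial.X)

theorem homogeneousComponent_succ_mul_X (n : ℕ) (p : MvPolynomial σ R) (i : σ) :
    homogeneousComponent (n + 1) (p * MvPolynomial.X i) =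
      homogeneousComponent n p * MvPolynomial.X i := by
  classical
  ext d
  rw [coeff_homogeneousComponent, coeff_mul_X', coeff_mul_X', coeff_homogeneousComponent]
  by_cases hi : i ∈ d.support
  · simp only [hi, if_true]
    have h1 : Finsupp.single i 1 ≤ d := by
      rw [Finsupp.single_le_iff]
      exact Nat.one_le_iff_ne_zero.2 (Finsupp.mem_support_iff.1 hi)
    have h2 : d.degree = (d - Finsupp.single i 1).degree + 1 := by
      conv_lhs => rw [← tsub_add_cancel_of_le h1]
      rw [map_add, Finsupp.degree_single]
    rw [h2]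
    by_cases h3 : (d - Finsupp.single i 1).degree = n
    · rw [if_pos (by rw [h3]), if_pos h3]
    · rw [if_neg (by omega), if_neg h3]
  · simp [hi]

theorem homogeneousComponent_zero_mul_X (p : MvPolynomial σ R) (i : σ) :
    homogeneousComponent 0 (p * MvPolynomial.X i) = 0 := by
  classical
  rw [homogeneousComponent_zero, coeff_mul_X']
  simp

theorem coeff_grade (p : MvPolynomial σ R) (n : ℕ) :
    (grade p).coeff n = homogeneousComponent n p := by
  classical
  induction p using MvPolynomial.induction_on generalizing n with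
  | C a =>
    have h1 : grade (C a : MvPolynomial σ R) = Polynomial.C (C a) := by
      unfold grade
      rw [aeval_C]; rfl
    rw [h1, Polynomial.coeff_C]
    ext d
    rw [coeff_homogeneousComponent]
    by_cases hn : n = 0
    · subst hn
      rw [if_pos rfl]
      by_cases hd : d.degree = 0
      · rw [if_pos hd]
      · rw [if_neg hd, coeff_C, if_neg]
        rintro rfl
        exact hd (map_zero _)
    · rw [if_neg hn, coeff_zero]
      by_cases hd : d.degree = n
      · rw [if_pos hd, coeff_C, if_neg]
        rintro rfl
        exact hn (by rw [← hd, map_zero])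
      · rw [if_neg hd]
  | add p q hp hq =>
    rw [map_add, Polynomial.coeff_add, hp, hq, map_add]
  | mul_X p i hp =>
    have h1 : grade (p * MvPolynomial.X i) =
        (grade p * Polynomial.C (MvPolynomial.X i)) * Polynomial.X := by
      unfold grade
      rw [map_mul, aeval_X, mul_assoc]
    rw [h1]
    rcases n with _ | n
    · rw [Polynomial.coeff_mul_X_zero, homogeneousComponent_zero_mul_X]
    · rw [Polynomial.coeff_mul_X, Polynomial.coeff_mul_C, hp, homogeneousComponent_succ_mul_X]

theorem grade_ne_zero {p : MvPolynomial σ R} (hp : p ≠ 0) : grade p ≠ 0 := by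
  intro h0
  apply hp
  ext d
  have h1 : (grade p).coeff d.degree = 0 := by rw [h0]; simp
  rw [coeff_grade] at h1
  have h2 := congrArg (coeff d) h1
  rw [coeff_homogeneousComponent, if_pos rfl] at h2
  rw [h2]

theorem natDegree_grade_le (p : MvPolynomial σ R) : (grade p).natDegree ≤ p.totalDegree := by
  rw [Polynomial.natDegree_le_iff_coeff_eq_zero]
  intro n hn
  rw [coeff_grade, homogeneousComponent_eq_zero _ _ hn]

theorem grade_monomial (α : σ →₀ ℕ) (c : R) :
    grade (monomial α c) = Polynomial.C (monomial α c) * Polynomial.X ^ α.degree := by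
  classical
  ext1 n
  rw [coeff_grade, Polynomial.coeff_C_mul, Polynomial.coeff_X_pow]
  ext d
  rw [coeff_homogeneousComponent, coeff_monomial]
  by_cases hn : n = α.degree
  · subst hn
    rw [if_pos rfl, mul_one, coeff_monomial]
    by_cases hd : α = d
    · subst hd; simp
    · simp [hd]
  · rw [if_neg hn, mul_zero, coeff_zero]
    by_cases hd : d.degree = n
    · rw [if_pos hd, if_neg]
      rintro rfl
      exact hn hd.symm
    · rw [if_neg hd]

end grade

section est

variable {σ : Type*} {R : Type*} [CommRing R] [IsDomain R] [CharZero R]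

/-- multivariate zero estimate -/
theorem zeroEst_mv {ι J : Type*} [Fintype ι] [Fintype J]
    (u : J → MvPolynomial σ R) (h : ι → MvPolynomial σ R) (α : ι → σ →₀ ℕ) (e : ι → J → ℕ)
    (hu : ∀ j, constantCoeff (u j) ≠ 0) {f : MvPolynomial σ R}
    (hf : f = ∑ i, h i * monomial (α i) 1 * ∏ j, u j ^ e i j) (hf0 : f ≠ 0) (N : ℕ)
    (hN : (∑ j, (u j).totalDegree) * (Fintype.card ι * (Fintype.card ι - 1) / 2) +
        ∑ i, (h i).totalDegree ≤ N) :
    ∃ i, ∃ γ : σ →₀ ℕ, coeff γ f ≠ 0 ∧ (α i).degree ≤ γ.degree ∧ γ.degree ≤ (α i).degree + N ∧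
      γ.degree = (grade f).natTrailingDegree := by
  obtain ⟨i, h1, h2⟩ := zeroEst (fun j => grade (u j)) (fun i => grade (h i) *
      Polynomial.C (monomial (α i) 1)) (fun i => (α i).degree) e
    (fun j => by
      rw [coeff_grade, homogeneousComponent_zero]
      intro h0
      apply hu j
      rw [constantCoeff_eq]
      exact C_injective σ R (by rw [h0, map_zero]))
    (f := grade f)
    (by
      rw [hf, map_sum]
      refine Finset.sum_congr rfl fun i _ => ?_
      rw [map_mul, map_mul, map_prod, grade_monomial]
      simp only [map_pow]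
      ring)
    (grade_ne_zero hf0)
  have hc : (grade f).coeff (grade f).natTrailingDegree ≠ 0 :=
    Polynomial.trailingCoeff_nonzero_iff_nonzero.2 (grade_ne_zero hf0)
  rw [coeff_grade] at hc
  obtain ⟨γ, hγ⟩ := exists_coeff_ne_zero hc
  rw [coeff_homogeneousComponent] at hγ
  have hγ1 : γ.degree = (grade f).natTrailingDegree := by
    by_contra hne
    rw [if_neg hne] at hγ
    exact hγ rfl
  rw [if_pos hγ1] at hγ
  refine ⟨i, γ, hγ, by rw [hγ1]; exact h1, ?_, hγ1⟩
  rw [hγ1]
  refine h2.trans (Nat.add_le_add_left (le_trans (Nat.add_le_add ?_ ?_) hN) _)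
  · exact Nat.mul_le_mul_right _ (Finset.sum_le_sum fun j _ => natDegree_grade_le _)
  · refine Finset.sum_le_sum fun i _ => ?_
    refine (Polynomial.natDegree_mul_le).trans ?_
    rw [Polynomial.natDegree_C, add_zero]
    exact natDegree_grade_le _

end est

section linked

/-- two indices are linked if they are joined by a chain of indices whose consecutive values
differ by at most `N` -/
def Linked {ι : Type*} (V : ι → ℕ) (N : ℕ) : ι → ι → Prop :=
  Relation.ReflTransGen (fun a b => V a ≤ V b + N ∧ V b ≤ V a + N)

variable {ι : Type*} {V : ι → ℕ} {N : ℕ}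

theorem Linked.refl (a : ι) : Linked V N a a := Relation.ReflTransGen.refl

theorem Linked.symm {a b : ι} (h : Linked V N a b) : Linked V N b a := by
  induction h with
  | refl => exact Linked.refl _
  | tail _ hbc ih => exact Relation.ReflTransGen.head ⟨hbc.2, hbc.1⟩ ih

theorem Linked.trans {a b c : ι} (h : Linked V N a b) (h' : Linked V N b c) : Linked V N a c :=
  Relation.ReflTransGen.trans h h'

/-- the graph of direct links -/
def linkGraph (V : ι → ℕ) (N : ℕ) : SimpleGraph ι :=
  SimpleGraph.fromRel (fun a b => V a ≤ V b + N ∧ V b ≤ V a + N)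

theorem Linked.reachable {a b : ι} (h : Linked V N a b) : (linkGraph V N).Reachable a b := by
  induction h with
  | refl => exact SimpleGraph.Reachable.refl _
  | @tail b c _ hbc ih =>
    refine ih.trans ?_
    by_cases heq : b = c
    · subst heq; exact SimpleGraph.Reachable.refl _
    · exact SimpleGraph.Adj.reachable ((SimpleGraph.fromRel_adj _ _ _).2 ⟨heq, Or.inl hbc⟩)

theorem walk_bound {a b : ι} (p : (linkGraph V N).Walk a b) : V a ≤ V b + p.length * N := by
  induction p with
  | nil => simp
  | @cons x y z hxy q ih =>
    have h1 : V x ≤ V y + N := by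
      rcases (SimpleGraph.fromRel_adj _ _ _).1 hxy with ⟨_, h | h⟩
      · exact h.1
      · exact h.2
    rw [SimpleGraph.Walk.length_cons]
    linarith

theorem Linked.bound [Fintype ι] {a b : ι} (h : Linked V N a b) :
    V a ≤ V b + (Fintype.card ι - 1) * N := by
  classical
  obtain ⟨p⟩ := h.reachable
  have h1 := walk_bound (p.toPath : (linkGraph V N).Walk a b)
  have h2 := p.toPath.2.length_lt
  refine h1.trans (Nat.add_le_add_left (Nat.mul_le_mul_right _ ?_) _)
  omega

end linked

end Pool.Agent.Helper41_PIT
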