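import Pool.Agent.Helper41_PIT.Cluster

/-!
Truncated binary powers.
-/

set_option autoImplicit false

open MvPolynomial

namespace Pool.Agent.Helper41_PIT

variable {σ : Type*} {R : Type*} [CommRing R]

/-- The power `p ^ n` up to total degree `D`: with `c` the constant term of `p`,
the sum over `t ≤ D` of `(n choose t) c^(n-t) (p - c)^t`. -/
noncomputable def truncPow (D : ℕ) (p : MvPolynomial σ R) (n : ℕ) : MvPolynomial σ R :=
  ∑ t ∈ Finset.range (D + 1),
    (n.choose t : MvPolynomial σ R) * C (constantCoeff p ^ (n - t)) *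
      (p - C (constantCoeff p)) ^ t

/-- reduction modulo total degree `> D` -/
noncomputable def lowMap (D : ℕ) : MvPolynomial σ R →+*
    (Polynomial (MvPolynomial σ R)) ⧸ Ideal.span {(Polynomial.X : Polynomial (MvPolynomial σ R)) ^ (D + 1)} :=
  (Ideal.Quotient.mk _).comp (grade (σ := σ) (R := R)).toRingHom

theorem lowMap_eq_zero_iff (D : ℕ) (p : MvPolynomial σ R) :
    lowMap D p = 0 ↔ Polynomial.X ^ (D + 1) ∣ grade p := by
  unfold lowMap
  rw [RingHom.comp_apply, Ideal.Quotient.eq_zero_iff_mem, Ideal.mem_span_singleton]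
  rfl

theorem lowMap_eq_iff (D : ℕ) (p q : MvPolynomial σ R) :
    lowMap D p = lowMap D q ↔ ∀ γ : σ →₀ ℕ, γ.degree ≤ D → coeff γ p = coeff γ q := by
  rw [← sub_eq_zero, ← map_sub, lowMap_eq_zero_iff, Polynomial.X_pow_dvd_iff]
  constructor
  · intro h γ hγ
    have h1 := h γ.degree (by omega)
    rw [coeff_grade] at h1
    have h2 := congrArg (coeff γ) h1
    rw [coeff_homogeneousComponent, if_pos rfl, coeff_sub, coeff_zero] at h2
    exact sub_eq_zero.1 h2
  · intro h d hd
    rw [coeff_grade]
    ext γ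
    rw [coeff_homogeneousComponent, coeff_zero]
    split_ifs with hγ
    · rw [coeff_sub, h γ (by omega), sub_self]
    · rfl

theorem lowMap_truncPow (D : ℕ) (p : MvPolynomial σ R) (n : ℕ) :
    lowMap D (truncPow D p n) = lowMap D (p ^ n) := by
  classical
  set c := constantCoeff p with hc
  have hX : (Polynomial.X : Polynomial (MvPolynomial σ R)) ∣ grade (p - C c) := by
    rw [Polynomial.X_dvd_iff, coeff_grade, homogeneousComponent_zero, coeff_sub, coeff_C,
      if_pos rfl, hc, constantCoeff_eq, sub_self, map_zero]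
  have hpow : ∀ t, D < t → lowMap D ((p - C c) ^ t) = 0 := by
    intro t ht
    rw [lowMap_eq_zero_iff, map_pow]
    exact (pow_dvd_pow _ ht).trans (pow_dvd_pow_of_dvd hX t)
  have hexp : p ^ n = ∑ t ∈ Finset.range (n + 1),
      (n.choose t : MvPolynomial σ R) * C (c ^ (n - t)) * (p - C c) ^ t := by
    have h1 : p = (p - C c) + C c := by ring
    conv_lhs => rw [h1]
    rw [add_pow]
    refine Finset.sum_congr rfl fun t _ => ?_
    rw [map_pow]; ring
  have hbig : ∀ M : ℕ, D ≤ M → lowMap D (∑ t ∈ Finset.range (M + 1),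
      (n.choose t : MvPolynomial σ R) * C (c ^ (n - t)) * (p - C c) ^ t) =
      lowMap D (truncPow D p n) := by
    intro M hM
    unfold truncPow
    rw [← hc]
    rw [map_sum, map_sum]
    symm
    apply Finset.sum_subset
    · intro t ht
      rw [Finset.mem_range] at ht ⊢
      omega
    · intro t _ ht
      rw [Finset.mem_range] at ht
      rw [lowMap_eq_zero_iff, map_mul]
      exact Dvd.dvd.mul_left ((lowMap_eq_zero_iff _ _).1 (hpow t (by omega))) _
  have hn : ∑ t ∈ Finset.range (n + 1),
      (n.choose t : MvPolynomial σ R) * C (c ^ (n - t)) * (p - C c) ^ t =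
      ∑ t ∈ Finset.range (max n D + 1),
      (n.choose t : MvPolynomial σ R) * C (c ^ (n - t)) * (p - C c) ^ t := by
    apply Finset.sum_subset
    · intro t ht
      rw [Finset.mem_range] at ht ⊢
      have := le_max_left n D
      omega
    · intro t _ ht
      rw [Finset.mem_range] at ht
      rw [Nat.choose_eq_zero_of_lt (by omega)]
      simp
  rw [hexp, hn, hbig _ (le_max_right _ _)]

theorem coeff_truncPow {J : Type*} [Fintype J] (D : ℕ) (h : MvPolynomial σ R)
    (u : J → MvPolynomial σ R) (e : J → ℕ) (γ : σ →₀ ℕ) (hγ : γ.degree ≤ D) :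
    coeff γ (h * ∏ j, truncPow D (u j) (e j)) = coeff γ (h * ∏ j, u j ^ e j) := by
  refine (lowMap_eq_iff D _ _).1 ?_ γ hγ
  rw [map_mul, map_mul, map_prod, map_prod]
  congr 1
  exact Finset.prod_congr rfl fun j _ => lowMap_truncPow D _ _

end Pool.Agent.Helper41_PIT
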