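import Mathlib

/-!
Wronskians of polynomials over a field of characteristic zero: a vanishing Wronskian
determinant forces linear dependence over the field.
-/

set_option autoImplicit false

open Polynomial

namespace Pool.Agent.Helper41_PIT

variable {K : Type*} [Field K] [CharZero K]

/-- leading coefficient comparison -/
theorem natDegree_eq_of_cross {c g : K[X]} (hc : c ≠ 0) (hg : g ≠ 0)
    (h : c * derivative g = derivative c * g) : g.natDegree = c.natDegree := by
  have h1 := congrArg (fun p : K[X] => p.coeff (c.natDegree + g.natDegree - 1)) h
  by_contra hne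
  have hpos : 0 < c.natDegree + g.natDegree := by omega
  -- compare via `X * `
  have h2 : c * (X * derivative g) = (X * derivative c) * g := by
    calc c * (X * derivative g) = X * (c * derivative g) := by ring
      _ = X * (derivative c * g) := by rw [h]
      _ = _ := by ring
  have key : ∀ p : K[X], (X * derivative p).coeff p.natDegree = p.natDegree * p.leadingCoeff := by
    intro p
    rcases Nat.eq_zero_or_pos p.natDegree with h0 | h0
    · rw [h0]; simp
    · obtain ⟨n, hn⟩ : ∃ n, p.natDegree = n + 1 := ⟨p.natDegree - 1, by omega⟩
      rw [hn, coeff_X_mul, coeff_derivative, leadingCoeff, hn]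
      push_cast; ring
  have kdeg : ∀ p : K[X], (X * derivative p).natDegree ≤ p.natDegree := by
    intro p
    rcases Nat.eq_zero_or_pos p.natDegree with h0 | h0
    · rw [natDegree_eq_zero] at h0
      obtain ⟨a, rfl⟩ := h0
      simp
    · refine natDegree_mul_le.trans ?_
      have := natDegree_derivative_lt (p := p) (by omega)
      rw [natDegree_X]; omega
  have h3 : (c * (X * derivative g)).coeff (c.natDegree + g.natDegree) =
      c.leadingCoeff * (g.natDegree * g.leadingCoeff) := by
    rw [coeff_mul_add_eq_of_natDegree_le le_rfl (kdeg g), key g]; rfl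
  have h4 : ((X * derivative c) * g).coeff (c.natDegree + g.natDegree) =
      (c.natDegree * c.leadingCoeff) * g.leadingCoeff := by
    rw [coeff_mul_add_eq_of_natDegree_le (kdeg c) le_rfl, key c]; rfl
  rw [h2, h4] at h3
  have hcl : c.leadingCoeff ≠ 0 := leadingCoeff_ne_zero.2 hc
  have hgl : g.leadingCoeff ≠ 0 := leadingCoeff_ne_zero.2 hg
  have h5 : ((c.natDegree : K) - g.natDegree) * (c.leadingCoeff * g.leadingCoeff) = 0 := by
    linear_combination h3
  rcases mul_eq_zero.1 h5 with h6 | h6
  · apply hne
    have : (c.natDegree : K) = g.natDegree := sub_eq_zero.1 h6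
    exact_mod_cast this.symm
  · exact mul_ne_zero hcl hgl h6

/-- if `c g' = c' g` then `g` is a constant multiple of `c` -/
theorem exists_const_of_cross {c g : K[X]} (hc : c ≠ 0)
    (h : c * derivative g = derivative c * g) : ∃ a : K, g = C a * c := by
  by_cases hg : g = 0
  · exact ⟨0, by simp [hg]⟩
  have hd := natDegree_eq_of_cross hc hg h
  refine ⟨g.leadingCoeff / c.leadingCoeff, ?_⟩
  set a := g.leadingCoeff / c.leadingCoeff with ha
  by_contra hne
  have hcl : c.leadingCoeff ≠ 0 := leadingCoeff_ne_zero.2 hc
  have hgl : g.leadingCoeff ≠ 0 := leadingCoeff_ne_zero.2 hg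
  have ha0 : a ≠ 0 := div_ne_zero hgl hcl
  have hg' : g - C a * c ≠ 0 := sub_ne_zero.2 hne
  have h' : c * derivative (g - C a * c) = derivative c * (g - C a * c) := by
    rw [derivative_sub, derivative_C_mul]
    linear_combination h
  have hd' := natDegree_eq_of_cross hc hg' h'
  have hdeg : g.degree = (C a * c).degree := by
    rw [degree_C_mul ha0, degree_eq_natDegree hg, degree_eq_natDegree hc, hd]
  have hlc : g.leadingCoeff = (C a * c).leadingCoeff := by
    rw [leadingCoeff_mul, leadingCoeff_C, ha]
    field_simp
  have hlt := degree_sub_lt_left hdeg hg hlc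
  rw [degree_eq_natDegree hg', degree_eq_natDegree hg, hd', hd] at hlt
  exact lt_irrefl _ hlt

/-- the Wronskian matrix, rows indexed by the order of differentiation -/
noncomputable def wmat {n : ℕ} (F : Fin n → K[X]) : Matrix (Fin n) (Fin n) K[X] :=
  fun r i => derivative^[r] (F i)

theorem not_linearIndependent_of_relation : ∀ (n : ℕ) (F c : Fin n → K[X]), c ≠ 0 →
    (∀ r < n, ∑ i, c i * derivative^[r] (F i) = 0) → ¬ LinearIndependent K F := by
  intro n
  induction n with
  | zero => intro F c hc _; exact absurd (Subsingleton.elim c 0) hc
  | succ n ih =>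
    intro F c hc hrel hli
    by_cases hz : ∃ i0, c i0 = 0
    · obtain ⟨i0, hi0⟩ := hz
      refine ih (F ∘ i0.succAbove) (c ∘ i0.succAbove) ?_ ?_
        (hli.comp _ Fin.succAbove_right_injective)
      · intro h
        apply hc
        funext i
        rcases eq_or_ne i i0 with rfl | hne
        · exact hi0
        · obtain ⟨j, rfl⟩ := Fin.exists_succAbove_eq hne
          exact congrFun h j
      · intro r hr
        have := hrel r (by omega)
        rw [Fin.sum_univ_succAbove _ i0, hi0, zero_mul, zero_add] at this
        exact this
    · push Not at hz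
      have hder : ∀ r < n, ∑ i, derivative (c i) * derivative^[r] (F i) = 0 := by
        intro r hr
        have h1 := hrel r (by omega)
        have h2 := hrel (r + 1) (by omega)
        have h3 := congrArg derivative h1
        rw [derivative_sum] at h3
        simp only [derivative_mul, derivative_zero, Finset.sum_add_distrib] at h3
        simp only [Function.iterate_succ', Function.comp_apply] at h2
        rw [h2, add_zero] at h3
        exact h3
      set b : Fin n → K[X] := fun i => c 0 * derivative (c i.succ) - derivative (c 0) * c i.succ
        with hb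
      by_cases hb0 : b = 0
      · have hconst : ∀ i : Fin (n + 1), ∃ a : K, c i = C a * c 0 := by
          intro i
          refine Fin.cases ⟨1, by simp⟩ (fun i => ?_) i
          apply exists_const_of_cross (hz 0)
          exact sub_eq_zero.1 (congrFun hb0 i)
        choose a ha using hconst
        have h0 := hrel 0 (by omega)
        simp only [Function.iterate_zero, id_eq] at h0
        have h1 : c 0 * ∑ i, a i • F i = 0 := by
          rw [Finset.mul_sum, ← h0]
          refine Finset.sum_congr rfl fun i _ => ?_
          rw [ha i, smul_eq_C_mul]
          have : c 0 = C (a 0) * c 0 := ha 0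
          ring_nf
        have h2 : ∑ i, a i • F i = 0 := (mul_eq_zero.1 h1).resolve_left (hz 0)
        have h3 := (Fintype.linearIndependent_iff.1 hli) a h2 0
        have h4 := ha 0
        rw [h3] at h4
        apply hz 0
        simpa using h4
      · refine ih (F ∘ Fin.succ) b hb0 ?_ (hli.comp _ (Fin.succ_injective _))
        intro r hr
        have h1 := hrel r (by omega)
        have h2 := hder r hr
        rw [Fin.sum_univ_succ] at h1 h2
        have h3 : ∑ i, b i * derivative^[r] ((F ∘ Fin.succ) i) =
            c 0 * ∑ i : Fin n, derivative (c i.succ) * derivative^[r] (F i.succ) -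
            derivative (c 0) * ∑ i : Fin n, c i.succ * derivative^[r] (F i.succ) := by
          rw [Finset.mul_sum, Finset.mul_sum, ← Finset.sum_sub_distrib]
          refine Finset.sum_congr rfl fun i _ => ?_
          simp only [hb, Function.comp_apply]
          ring
        rw [h3]
        linear_combination c 0 * h2 - derivative (c 0) * h1

/-- **The Wronskian of linearly independent polynomials is nonzero** (characteristic zero). -/
theorem det_wmat_ne_zero {n : ℕ} {F : Fin n → K[X]} (h : LinearIndependent K F) :
    (wmat F).det ≠ 0 := by
  intro h0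
  obtain ⟨c, hc, hc0⟩ := Matrix.exists_mulVec_eq_zero_iff.2 h0
  refine not_linearIndependent_of_relation n F c hc ?_ h
  intro r hr
  have := congrFun hc0 ⟨r, hr⟩
  simp only [Matrix.mulVec, dotProduct, wmat, Pi.zero_apply] at this
  rw [← this]
  refine Finset.sum_congr rfl fun i _ => ?_
  ring

end Pool.Agent.Helper41_PIT
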