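import Pool.Agent.Helper41_PIT.Euler

/-!
The zero estimate for arbitrary sums, over a field and over a domain of characteristic zero.
-/

set_option autoImplicit false

open Polynomial

namespace Pool.Agent.Helper41_PIT

/-- the order at the origin of a nonzero sum `∑ h_i X^(V_i) ∏ u_j^(e_ij)` lies in one of the
windows `[V_i, V_i + N]` -/
theorem zeroEst_field {K : Type*} [Field K] [CharZero K] {ι J : Type*} [Fintype ι] [Fintype J]
    (u : J → K[X]) (h : ι → K[X]) (V : ι → ℕ) (e : ι → J → ℕ)
    (hu : ∀ j, (u j).coeff 0 ≠ 0) {f : K[X]}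
    (hf : f = ∑ i, h i * X ^ V i * ∏ j, u j ^ e i j) (hf0 : f ≠ 0) :
    ∃ i, V i ≤ f.natTrailingDegree ∧ f.natTrailingDegree ≤ V i +
      ((∑ j, (u j).natDegree) * (Fintype.card ι * (Fintype.card ι - 1) / 2) +
        ∑ i, (h i).natDegree) := by
  classical
  set F : ι → K[X] := fun i => h i * X ^ V i * ∏ j, u j ^ e i j with hF
  obtain ⟨κ, a, ha, hspan, hli⟩ := exists_linearIndependent' K F
  have hfin : Finite κ := Finite.of_injective a ha
  have hfκ : Fintype κ := Fintype.ofFinite κ
  set n := Fintype.card κ with hn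
  let eq := Fintype.equivFin κ
  set a' : Fin n → ι := fun i => a (eq.symm i) with ha'
  have ha'inj : Function.Injective a' := ha.comp eq.symm.injective
  have hli' : LinearIndependent K (fun i => F (a' i)) :=
    hli.comp eq.symm eq.symm.injective
  have hfmem : f ∈ Submodule.span K (Set.range (F ∘ a)) := by
    rw [hspan, hf]
    exact Submodule.sum_mem _ fun i _ => Submodule.subset_span ⟨i, rfl⟩
  obtain ⟨b0, hb0⟩ := (Submodule.mem_span_range_iff_exists_fun K).1 hfmem
  set b : Fin n → K := fun i => b0 (eq.symm i) with hb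
  have hfb : f = ∑ i, b i • F (a' i) := by
    rw [← hb0, ← eq.symm.sum_comp]
    rfl
  have hne : (Finset.univ.filter fun i => b i ≠ 0).Nonempty := by
    by_contra hcon
    rw [Finset.not_nonempty_iff_eq_empty, Finset.filter_eq_empty_iff] at hcon
    apply hf0
    rw [hfb]
    refine Finset.sum_eq_zero fun i hi => ?_
    have := hcon hi
    push Not at this
    rw [this, zero_smul]
  obtain ⟨i0, hi0, hmin⟩ := Finset.exists_min_image _ (fun i => V (a' i)) hne
  rw [Finset.mem_filter] at hi0
  refine ⟨a' i0, ?_, ?_⟩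
  · apply le_natTrailingDegree hf0
    rw [← X_pow_dvd_iff, hfb]
    refine Finset.dvd_sum fun i _ => ?_
    by_cases hbi : b i = 0
    · rw [hbi, zero_smul]; exact dvd_zero _
    · rw [smul_eq_C_mul]
      refine Dvd.dvd.mul_left ?_ _
      have h1 := hmin i (Finset.mem_filter.2 ⟨Finset.mem_univ _, hbi⟩)
      refine (pow_dvd_pow X h1).trans ?_
      exact ⟨h (a' i) * ∏ j, u j ^ e (a' i) j, by simp only [hF]; ring⟩
  · have hX : X ^ f.natTrailingDegree ∣ f :=
      X_pow_dvd_iff.2 fun d hd => coeff_eq_zero_of_lt_natTrailingDegree hd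
    have h1 := zeroEst_li u (fun i => h (a' i)) (fun i => V (a' i)) (fun i => e (a' i)) hu hli' b i0
      hi0.2 f.natTrailingDegree (by rw [hfb] at hX ⊢; exact hX)
    refine h1.trans (Nat.add_le_add_left (Nat.add_le_add ?_ ?_) _)
    · apply Nat.mul_le_mul_left
      apply Nat.div_le_div_right
      have hcard : n ≤ Fintype.card ι := by
        have := Fintype.card_le_of_injective a' ha'inj
        simpa using this
      exact Nat.mul_le_mul hcard (Nat.sub_le_sub_right hcard 1)
    · rw [← Finset.sum_image (s := Finset.univ) (g := a') (f := fun i => (h i).natDegree)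
        (fun x _ y _ hxy => ha'inj hxy)]
      exact Finset.sum_le_sum_of_subset (Finset.subset_univ _)

theorem natTrailingDegree_map_inj {R S : Type*} [Semiring R] [Semiring S] {φ : R →+* S}
    (hφ : Function.Injective φ) (p : R[X]) :
    (p.map φ).natTrailingDegree = p.natTrailingDegree := by
  by_cases hp : p = 0
  · simp [hp]
  have hp' : p.map φ ≠ 0 := (Polynomial.map_ne_zero_iff hφ).2 hp
  apply le_antisymm
  · apply natTrailingDegree_le_of_ne_zero
    rw [coeff_map]
    intro h0
    have h1 : p.coeff p.natTrailingDegree = 0 := hφ (by rw [h0, map_zero])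
    exact (trailingCoeff_nonzero_iff_nonzero.2 hp) h1
  · apply le_natTrailingDegree hp'
    intro m hm
    rw [coeff_map, coeff_eq_zero_of_lt_natTrailingDegree hm, map_zero]

/-- the zero estimate over a domain of characteristic zero -/
theorem zeroEst {R : Type*} [CommRing R] [IsDomain R] [CharZero R]
    {ι J : Type*} [Fintype ι] [Fintype J]
    (u : J → R[X]) (h : ι → R[X]) (V : ι → ℕ) (e : ι → J → ℕ)
    (hu : ∀ j, (u j).coeff 0 ≠ 0) {f : R[X]}
    (hf : f = ∑ i, h i * X ^ V i * ∏ j, u j ^ e i j) (hf0 : f ≠ 0) :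
    ∃ i, V i ≤ f.natTrailingDegree ∧ f.natTrailingDegree ≤ V i +
      ((∑ j, (u j).natDegree) * (Fintype.card ι * (Fintype.card ι - 1) / 2) +
        ∑ i, (h i).natDegree) := by
  let φ := algebraMap R (FractionRing R)
  have hφ : Function.Injective φ := IsFractionRing.injective R (FractionRing R)
  have : CharZero (FractionRing R) := charZero_of_injective_algebraMap hφ
  obtain ⟨i, h1, h2⟩ := zeroEst_field (fun j => (u j).map φ) (fun i => (h i).map φ) V e
    (fun j => by
      rw [coeff_map]
      intro h0
      exact hu j (hφ (by rw [h0, map_zero])))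
    (f := f.map φ)
    (by
      rw [hf, Polynomial.map_sum]
      refine Finset.sum_congr rfl fun i _ => ?_
      rw [Polynomial.map_mul, Polynomial.map_mul, Polynomial.map_pow, map_X, Polynomial.map_prod]
      simp only [Polynomial.map_pow])
    ((Polynomial.map_ne_zero_iff hφ).2 hf0)
  rw [natTrailingDegree_map_inj hφ] at h1 h2
  refine ⟨i, h1, ?_⟩
  simpa only [natDegree_map_eq_of_injective hφ] using h2

end Pool.Agent.Helper41_PIT
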